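import Pool.Agent.H86.IR.Targets2

/-!
# Abel summation with the weights `1/2, -1, 1, …, ±1, ∓1/2`
-/

set_option autoImplicit false

open Finset

namespace Pool.Agent.H87.IR

open Pool.Agent.H86.IR

/-- one variable -/
theorem abl_one (M : ℕ) (g : ℕ → ℝ) :
    ∑ k ∈ Finset.range (M + 1 + 1), wt (M + 1) k * g k =
      ∑ a ∈ Finset.range (M + 1), ((-1) ^ a / 2) * (g a - g (a + 1)) := by
  have h1 : ∑ k ∈ Finset.range (M + 1 + 1), wt (M + 1) k * g k =
      1 / 2 * g 0 + ∑ k ∈ Finset.range M, (-1) ^ (k + 1) * g (k + 1) +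
        (-1) ^ (M + 1) / 2 * g (M + 1) := by
    rw [Finset.sum_range_succ, Finset.sum_range_succ']
    have h2 : ∀ k ∈ Finset.range M, wt (M + 1) (k + 1) * g (k + 1) =
        (-1) ^ (k + 1) * g (k + 1) := by
      intro k hk
      rw [Finset.mem_range] at hk
      have e1 : ¬ (k + 1 = 0) := by omega
      have e2 : ¬ (k + 1 = M + 1) := by omega
      rw [wt, if_neg e1, if_neg e2]
    rw [Finset.sum_congr rfl h2]
    have e3 : wt (M + 1) 0 = 1 / 2 := by rw [wt, if_pos rfl]
    have e4 : wt (M + 1) (M + 1) = (-1) ^ (M + 1) / 2 := by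
      rw [wt, if_neg (by omega), if_pos rfl]
    rw [e3, e4]
    ring
  rw [h1]
  clear h1
  induction M with
  | zero => simp; ring
  | succ M ih =>
    rw [Finset.sum_range_succ (fun a => ((-1 : ℝ) ^ a / 2) * (g a - g (a + 1))) (M + 1), ← ih,
      Finset.sum_range_succ]
    ring

/-- the second difference -/
def D2 (f : ℕ → ℕ → ℝ) (a b : ℕ) : ℝ := f a b - f (a + 1) b - f a (b + 1) + f (a + 1) (b + 1)

/-- two variables -/
theorem abl_two (M : ℕ) (f : ℕ → ℕ → ℝ) :
    ∑ k ∈ Finset.range (M + 1 + 1), ∑ j ∈ Finset.range (M + 1 + 1),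
        wt (M + 1) k * wt (M + 1) j * f k j =
      ∑ a ∈ Finset.range (M + 1), ∑ b ∈ Finset.range (M + 1),
        ((-1) ^ a / 2) * ((-1) ^ b / 2) * D2 f a b := by
  have h1 : ∀ k, ∑ j ∈ Finset.range (M + 1 + 1), wt (M + 1) k * wt (M + 1) j * f k j =
      wt (M + 1) k * ∑ b ∈ Finset.range (M + 1), ((-1) ^ b / 2) * (f k b - f k (b + 1)) := by
    intro k
    rw [← abl_one M (f k), Finset.mul_sum]
    exact Finset.sum_congr rfl fun j _ => by ring
  simp only [h1]
  rw [abl_one M (fun k => ∑ b ∈ Finset.range (M + 1), ((-1) ^ b / 2) * (f k b - f k (b + 1)))]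
  refine Finset.sum_congr rfl fun a _ => ?_
  rw [← Finset.sum_sub_distrib, Finset.mul_sum]
  refine Finset.sum_congr rfl fun b _ => ?_
  rw [D2]
  ring

/-- the second differences telescope -/
theorem D2_sum (N : ℕ) (f : ℕ → ℕ → ℝ) :
    ∑ a ∈ Finset.range N, ∑ b ∈ Finset.range N, D2 f a b =
      f 0 0 - f N 0 - f 0 N + f N N := by
  have h1 : ∀ a, ∑ b ∈ Finset.range N, D2 f a b =
      (fun a => f a 0 - f a N) a - (fun a => f a 0 - f a N) (a + 1) := by
    intro a
    have h2 : ∀ b, D2 f a b = (fun b => f a b - f (a + 1) b) b -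
        (fun b => f a b - f (a + 1) b) (b + 1) := by
      intro b
      simp only [D2]
      ring
    rw [Finset.sum_congr rfl fun b _ => h2 b, Finset.sum_range_sub']
    ring
  rw [Finset.sum_congr rfl fun a _ => h1 a, Finset.sum_range_sub']
  ring

/-- nonnegative second differences -/
theorem abl_pos (M : ℕ) (f : ℕ → ℕ → ℝ) (hf : ∀ a < M + 1, ∀ b < M + 1, 0 ≤ D2 f a b) :
    |∑ k ∈ Finset.range (M + 1 + 1), ∑ j ∈ Finset.range (M + 1 + 1),
        wt (M + 1) k * wt (M + 1) j * f k j| ≤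
      |f 0 0 - f (M + 1) 0 - f 0 (M + 1) + f (M + 1) (M + 1)| / 4 := by
  rw [abl_two]
  have h1 : ∀ a ∈ Finset.range (M + 1), |∑ b ∈ Finset.range (M + 1),
      ((-1 : ℝ) ^ a / 2) * ((-1) ^ b / 2) * D2 f a b| ≤
      ∑ b ∈ Finset.range (M + 1), D2 f a b / 4 := by
    intro a ha
    refine (Finset.abs_sum_le_sum_abs _ _).trans (Finset.sum_le_sum fun b hb => ?_)
    rw [Finset.mem_range] at ha hb
    have h0 := hf a ha b hb
    rw [abs_mul, abs_mul, abs_div, abs_div, abs_pow, abs_pow, abs_neg, abs_one, one_pow, one_pow,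
      abs_two, abs_of_nonneg h0]
    exact le_of_eq (by ring)
  refine (Finset.abs_sum_le_sum_abs _ _).trans ((Finset.sum_le_sum h1).trans ?_)
  have h2 : ∑ a ∈ Finset.range (M + 1), ∑ b ∈ Finset.range (M + 1), D2 f a b / 4 =
      (∑ a ∈ Finset.range (M + 1), ∑ b ∈ Finset.range (M + 1), D2 f a b) / 4 := by
    rw [Finset.sum_div]
    exact Finset.sum_congr rfl fun a _ => (Finset.sum_div _ _ _).symm
  rw [h2, D2_sum]
  exact div_le_div_of_nonneg_right (le_abs_self _) (by norm_num)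

/-- ABL: Abel summation -/
theorem abl : T_ABL := by
  intro N f hN hf
  obtain ⟨M, rfl⟩ : ∃ M, N = M + 1 := ⟨N - 1, by omega⟩
  rcases hf with hf | hf
  · exact abl_pos M f hf
  · have h := abl_pos M (fun a b => -f a b) (by
      intro a ha b hb
      have := hf a ha b hb
      simp only [D2]
      linarith)
    have h1 : ∑ k ∈ Finset.range (M + 1 + 1), ∑ j ∈ Finset.range (M + 1 + 1),
        wt (M + 1) k * wt (M + 1) j * (-f k j) =
        -∑ k ∈ Finset.range (M + 1 + 1), ∑ j ∈ Finset.range (M + 1 + 1),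
          wt (M + 1) k * wt (M + 1) j * f k j := by
      rw [← Finset.sum_neg_distrib]
      refine Finset.sum_congr rfl fun k _ => ?_
      rw [← Finset.sum_neg_distrib]
      exact Finset.sum_congr rfl fun j _ => by ring
    have h2 : -f 0 0 - -f (M + 1) 0 - -f 0 (M + 1) + -f (M + 1) (M + 1) =
        -(f 0 0 - f (M + 1) 0 - f 0 (M + 1) + f (M + 1) (M + 1)) := by ring
    rw [h1, h2, abs_neg, abs_neg] at h
    exact h

end Pool.Agent.H87.IR
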