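import Pool.Agent.H86.IR.Targets2

/-!
# The bound for all `n`, by induction
-/

set_option autoImplicit false

open Finset

namespace Pool.Agent.H87.IR

open Pool.Agent.H86.IR

/-- two poles -/
theorem pb_two (hEIB : T_EIB) : PB 2 := by
  intro x γ hE hx
  have h1 := (hEIB 2 x γ hE).1 0 1 (by norm_num) (by norm_num)
  have h01 : x 0 < x 1 := hE.1 0 1 (by norm_num) (by norm_num)
  have h2 : x 1 - x 0 ≤ 2 := by simpa using hx
  have h3 : Real.log (x 1 - x 0) ≤ Real.log 2 := Real.log_le_log (by linarith) h2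
  have h4 : (1 / 2 : ℝ) ≤ 4 / (Real.pi * ((2 : ℕ) : ℝ)) := by
    rw [div_le_div_iff₀ (by norm_num) (by positivity)]
    have := Real.pi_le_four
    push_cast
    linarith
  have h5 : Real.log (1 / 2) ≤ Real.log (4 / (Real.pi * ((2 : ℕ) : ℝ))) :=
    Real.log_le_log (by norm_num) h4
  have h6 : Real.log (1 / 2 : ℝ) = -Real.log 2 := by
    rw [one_div, Real.log_inv]
  have h7 : Real.log ((2 : ℝ) ^ 4) ≤ Real.log (10 ^ 5) :=
    Real.log_le_log (by norm_num) (by norm_num)
  have h8 : Real.log ((2 : ℝ) ^ 4) = 4 * Real.log 2 := by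
    rw [Real.log_pow]; norm_num
  have h9 : ∑ k ∈ Finset.range 2, γ k = γ 0 + γ 1 := by
    rw [Finset.sum_range_succ, Finset.sum_range_one]
  rw [h9]
  have h10 : 2 * Real.log 2 ≤ Real.log (10 ^ 5) +
      ((2 : ℕ) : ℝ) * Real.log (4 / (Real.pi * ((2 : ℕ) : ℝ))) := by
    rw [h6] at h5
    rw [h8] at h7
    have h11 : ((2 : ℕ) : ℝ) * Real.log (4 / (Real.pi * ((2 : ℕ) : ℝ))) =
        2 * Real.log (4 / (Real.pi * ((2 : ℕ) : ℝ))) := by norm_num
    rw [h11]
    generalize Real.log (4 / (Real.pi * ((2 : ℕ) : ℝ))) = u at *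
    generalize Real.log ((10 : ℝ) ^ 5) = v at *
    linarith
  exact (h1.trans (mul_le_mul_of_nonneg_left h3 (by norm_num))).trans h10

/-- NUM: the bound for all `n` -/
theorem num (hEIB : T_EIB) (hC1 : T_C1) (hC2A : T_C2A) (hC2B : T_C2B) : T_NUM := by
  intro n hn
  induction n, hn using Nat.le_induction with
  | base => exact pb_two hEIB
  | succ n hn ih =>
    have hn3 : 3 ≤ n + 1 := by omega
    have hPB : PB (n + 1 - 1) := by rw [Nat.add_sub_cancel]; exact ih
    intro x γ hE hx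
    by_cases hs : ∃ m < n + 1, γ m ≤ Real.log (4 / (Real.pi * ((n + 1 : ℕ) : ℝ))) - 1
    · obtain ⟨m, hm, h⟩ := hs
      exact hC1 (n + 1) hn3 hPB x γ hE hx m hm h
    · have hge : ∀ m < n + 1, Real.log (4 / (Real.pi * ((n + 1 : ℕ) : ℝ))) - 1 ≤ γ m := by
        intro m hm
        by_contra hc
        exact hs ⟨m, hm, le_of_lt (not_le.mp hc)⟩
      by_cases hl : 8 * (x (n + 1 - 1) - x 0) ≤ (((n + 1 : ℕ) : ℝ) - 1) * (x 1 - x 0)
      · exact hC2A (n + 1) hn3 hPB x γ hE hx hge hl
      · by_cases hr : 8 * (x (n + 1 - 1) - x 0) ≤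
            (((n + 1 : ℕ) : ℝ) - 1) * (x (n + 1 - 1) - x (n + 1 - 2))
        · have hE' := (hEIB (n + 1) x γ hE).2.2.2
          have e0 : n + 1 - 1 - (n + 1 - 1) = 0 := by omega
          have e1 : n + 1 - 1 - 0 = n + 1 - 1 := by omega
          have e2 : n + 1 - 1 - 1 = n + 1 - 2 := by omega
          have hx' : (fun k => -x (n + 1 - 1 - k)) (n + 1 - 1) -
              (fun k => -x (n + 1 - 1 - k)) 0 ≤ 2 := by
            simp only [e0, e1]
            linarith
          have hge' : ∀ m < n + 1, Real.log (4 / (Real.pi * ((n + 1 : ℕ) : ℝ))) - 1 ≤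
              (fun k => γ (n + 1 - 1 - k)) m := by
            intro m hm
            exact hge _ (by omega)
          have hl' : 8 * ((fun k => -x (n + 1 - 1 - k)) (n + 1 - 1) -
              (fun k => -x (n + 1 - 1 - k)) 0) ≤
              (((n + 1 : ℕ) : ℝ) - 1) * ((fun k => -x (n + 1 - 1 - k)) 1 -
                (fun k => -x (n + 1 - 1 - k)) 0) := by
            simp only [e0, e1, e2]
            have a1 : -x 0 - -x (n + 1 - 1) = x (n + 1 - 1) - x 0 := by ring
            have a2 : -x (n + 1 - 2) - -x (n + 1 - 1) = x (n + 1 - 1) - x (n + 1 - 2) := by ring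
            rw [a1, a2]
            exact hr
          have h := hC2A (n + 1) hn3 hPB _ _ hE' hx' hge' hl'
          have hsum : ∑ k ∈ Finset.range (n + 1), (fun k => γ (n + 1 - 1 - k)) k =
              ∑ k ∈ Finset.range (n + 1), γ k := Finset.sum_range_reflect γ (n + 1)
          rw [hsum] at h
          exact h
        · exact hC2B (n + 1) hn3 x γ hE hx hge (le_of_lt (not_le.mp hl))
            (le_of_lt (not_le.mp hr))

end Pool.Agent.H87.IR
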